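import Pool.Agent.MNE.StmtsD

/-!
# MNE, row ASY: asymptotics of an infinite family
-/

set_option autoImplicit false

namespace Pool.Agent.MNE.H27

open Finset Filter Topology

theorem bound {κ c σ : ℤ} {M n q X Y : ℕ} (hp : Par κ c σ M n q) (h : E1 κ c σ M n q X Y) :
    (Y : ℝ) ^ q * (X : ℝ) ^ q ≤ (2 ^ M + |(c : ℝ)| * 2 ^ n) * (X : ℝ) ^ (2 * M) := by
  have hY : (0 : ℝ) < Y := by exact_mod_cast h.hY
  have hYX : (Y : ℝ) < X := by exact_mod_cast h.hYX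
  have hX1 : (1 : ℝ) ≤ X := by exact_mod_cast (h.hY.trans h.hYX : 0 < X)
  have hX : (0 : ℝ) < X := by linarith
  have hκ : (1 : ℝ) ≤ κ := by
    rcases hp.hκ with ⟨h1, -⟩ | ⟨h1, -⟩
    · rw [h1]
      push_cast
      exact one_le_pow₀ (by norm_num)
    · rw [h1]
      push_cast
      exact one_le_pow₀ (by norm_num)
  have heq : (κ : ℝ) * (X : ℝ) ^ q * (Y : ℝ) ^ q =
      ((X : ℝ) ^ 2 + σ * (Y : ℝ) ^ 2) ^ M + c * ((X : ℝ) ^ 2 - σ * (Y : ℝ) ^ 2) ^ n := by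
    exact_mod_cast congrArg (Int.cast : ℤ → ℝ) h.eq
  have hsq : (Y : ℝ) ^ 2 ≤ (X : ℝ) ^ 2 := pow_le_pow_left₀ hY.le hYX.le 2
  have hsig : |(σ : ℝ)| = 1 := by
    rcases hp.hσ with h1 | h1 <;> simp [h1]
  have hσY : |(σ : ℝ) * (Y : ℝ) ^ 2| ≤ (X : ℝ) ^ 2 := by
    rw [abs_mul, hsig, one_mul, abs_of_nonneg (by positivity)]
    exact hsq
  have a1 : |(X : ℝ) ^ 2 + σ * (Y : ℝ) ^ 2| ≤ 2 * (X : ℝ) ^ 2 := by
    calc |(X : ℝ) ^ 2 + σ * (Y : ℝ) ^ 2| ≤ |(X : ℝ) ^ 2| + |(σ : ℝ) * (Y : ℝ) ^ 2| := abs_add_le _ _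
      _ ≤ 2 * (X : ℝ) ^ 2 := by rw [abs_of_nonneg (sq_nonneg (X : ℝ))]; linarith
  have a2 : |(X : ℝ) ^ 2 - σ * (Y : ℝ) ^ 2| ≤ 2 * (X : ℝ) ^ 2 := by
    calc |(X : ℝ) ^ 2 - σ * (Y : ℝ) ^ 2| ≤ |(X : ℝ) ^ 2| + |(σ : ℝ) * (Y : ℝ) ^ 2| := abs_sub _ _
      _ ≤ 2 * (X : ℝ) ^ 2 := by rw [abs_of_nonneg (sq_nonneg (X : ℝ))]; linarith
  have b1 : |((X : ℝ) ^ 2 + σ * (Y : ℝ) ^ 2) ^ M| ≤ 2 ^ M * (X : ℝ) ^ (2 * M) := by
    rw [abs_pow, pow_mul, ← mul_pow]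
    exact pow_le_pow_left₀ (abs_nonneg _) a1 M
  have b2 : |((X : ℝ) ^ 2 - σ * (Y : ℝ) ^ 2) ^ n| ≤ 2 ^ n * (X : ℝ) ^ (2 * M) := by
    have h1 : |((X : ℝ) ^ 2 - σ * (Y : ℝ) ^ 2) ^ n| ≤ 2 ^ n * (X : ℝ) ^ (2 * n) := by
      rw [abs_pow, pow_mul, ← mul_pow]
      exact pow_le_pow_left₀ (abs_nonneg _) a2 n
    refine h1.trans (mul_le_mul_of_nonneg_left ?_ (by positivity))
    have := hp.hnM
    exact pow_le_pow_right₀ hX1 (by omega)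
  have e1 : (Y : ℝ) ^ q * (X : ℝ) ^ q ≤ κ * (X : ℝ) ^ q * (Y : ℝ) ^ q := by
    have h1 : 0 ≤ (Y : ℝ) ^ q * (X : ℝ) ^ q := by positivity
    calc (Y : ℝ) ^ q * (X : ℝ) ^ q = 1 * ((Y : ℝ) ^ q * (X : ℝ) ^ q) := (one_mul _).symm
      _ ≤ κ * ((Y : ℝ) ^ q * (X : ℝ) ^ q) := mul_le_mul_of_nonneg_right hκ h1
      _ = κ * (X : ℝ) ^ q * (Y : ℝ) ^ q := by ring
  have e2 : |(c : ℝ) * ((X : ℝ) ^ 2 - σ * (Y : ℝ) ^ 2) ^ n| ≤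
      |(c : ℝ)| * (2 ^ n * (X : ℝ) ^ (2 * M)) := by
    rw [abs_mul]
    exact mul_le_mul_of_nonneg_left b2 (abs_nonneg _)
  have e3 := le_abs_self (((X : ℝ) ^ 2 + σ * (Y : ℝ) ^ 2) ^ M)
  have e4 := le_abs_self ((c : ℝ) * ((X : ℝ) ^ 2 - σ * (Y : ℝ) ^ 2) ^ n)
  calc (Y : ℝ) ^ q * (X : ℝ) ^ q ≤ κ * (X : ℝ) ^ q * (Y : ℝ) ^ q := e1
    _ = ((X : ℝ) ^ 2 + σ * (Y : ℝ) ^ 2) ^ M + c * ((X : ℝ) ^ 2 - σ * (Y : ℝ) ^ 2) ^ n := heq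
    _ ≤ 2 ^ M * (X : ℝ) ^ (2 * M) + |(c : ℝ)| * (2 ^ n * (X : ℝ) ^ (2 * M)) := by linarith
    _ = (2 ^ M + |(c : ℝ)| * 2 ^ n) * (X : ℝ) ^ (2 * M) := by ring

theorem asy : AsyStmt := by
  intro κ c σ M n q S hp hS hE
  have hne : (lim S).NeBot := cofinite_inf_principal_neBot_iff.2 hS
  have hmem : ∀ᶠ p in lim S, p ∈ S :=
    (eventually_principal.2 fun p hp => hp).filter_mono inf_le_right
  have hX : Tendsto (fun p : ℕ × ℕ => (p.1 : ℝ)) (lim S) atTop := by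
    rw [tendsto_atTop]
    intro b
    rw [lim, eventually_inf_principal, eventually_cofinite]
    obtain ⟨N, hN⟩ := exists_nat_ge b
    refine ((Set.finite_Iio N).prod (Set.finite_Iio N)).subset fun p hp1 => ?_
    simp only [Set.mem_ofPred_eq, Classical.not_imp, not_le] at hp1
    obtain ⟨h1, h2⟩ := hp1
    have h3 : (p.1 : ℝ) < N := lt_of_lt_of_le h2 hN
    have h4 : p.1 < N := by exact_mod_cast h3
    exact ⟨h4, ((hE p h1).hYX.trans h4)⟩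
  have hXpos : ∀ p ∈ S, (0 : ℝ) < p.1 := fun p hpS => by
    have h1 := (hE p hpS).hY.trans (hE p hpS).hYX
    exact_mod_cast h1
  set K := (2 ^ M + |(c : ℝ)| * 2 ^ n : ℝ) with hK
  have hK0 : 0 ≤ K := by positivity
  have hr1 : ∀ p ∈ S, ((p.2 : ℝ) / p.1) ^ q ≤ K / p.1 := by
    intro p hpS
    have h1 := bound hp (hE p hpS)
    have h2 := hXpos p hpS
    have h3 : (1 : ℝ) ≤ p.1 := by
      have h4 : 0 < p.1 := by exact_mod_cast h2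
      exact_mod_cast h4
    rw [div_pow, div_le_div_iff₀ (by positivity) h2]
    have h4 : (p.2 : ℝ) ^ q * (p.1 : ℝ) * (p.1 : ℝ) ^ q ≤ K * (p.1 : ℝ) ^ q * (p.1 : ℝ) ^ q := by
      calc (p.2 : ℝ) ^ q * (p.1 : ℝ) * (p.1 : ℝ) ^ q = ((p.2 : ℝ) ^ q * (p.1 : ℝ) ^ q) * p.1 := by
            ring
        _ ≤ (K * (p.1 : ℝ) ^ (2 * M)) * p.1 := mul_le_mul_of_nonneg_right h1 h2.le
        _ = K * (p.1 : ℝ) ^ (2 * M + 1) := by ring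
        _ ≤ K * (p.1 : ℝ) ^ (2 * q) := by
            refine mul_le_mul_of_nonneg_left (pow_le_pow_right₀ h3 ?_) hK0
            have := hp.hMq
            omega
        _ = K * (p.1 : ℝ) ^ q * (p.1 : ℝ) ^ q := by ring
    exact le_of_mul_le_mul_right h4 (by positivity)
  have hKX : Tendsto (fun p : ℕ × ℕ => K / (p.1 : ℝ)) (lim S) (𝓝 0) := hX.const_div_atTop K
  have hq0 : q ≠ 0 := by
    have := hp.hMq
    omega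
  have hr : Tendsto (fun p : ℕ × ℕ => (p.2 : ℝ) / p.1) (lim S) (𝓝 0) := by
    rw [tendsto_order]
    constructor
    · intro a ha
      exact Eventually.of_forall fun p => lt_of_lt_of_le ha (by positivity)
    · intro a ha
      have h1 : ∀ᶠ p in lim S, K / (p.1 : ℝ) < a ^ q :=
        (tendsto_order.1 hKX).2 _ (by positivity)
      filter_upwards [h1, hmem] with p h2 h3
      exact lt_of_pow_lt_pow_left₀ q ha.le ((hr1 p h3).trans_lt h2)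
  refine ⟨hne, hX, hr, ?_⟩
  have hinv : Tendsto (fun p : ℕ × ℕ => (1 / (p.1 : ℝ)) ^ (2 * (M - n))) (lim S) (𝓝 0) := by
    have h1 : Tendsto (fun p : ℕ × ℕ => 1 / (p.1 : ℝ)) (lim S) (𝓝 0) := hX.const_div_atTop 1
    have h2 := h1.pow (2 * (M - n))
    have h3 := hp.hnM
    rwa [zero_pow (by omega)] at h2
  have hlim : Tendsto (fun p : ℕ × ℕ => (1 + (σ : ℝ) * ((p.2 : ℝ) / p.1) ^ 2) ^ M +
      c * (1 - (σ : ℝ) * ((p.2 : ℝ) / p.1) ^ 2) ^ n * (1 / (p.1 : ℝ)) ^ (2 * (M - n)))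
      (lim S) (𝓝 ((1 + (σ : ℝ) * 0 ^ 2) ^ M + c * (1 - (σ : ℝ) * 0 ^ 2) ^ n * 0)) :=
    ((tendsto_const_nhds.add (tendsto_const_nhds.mul (hr.pow 2))).pow M).add
      ((tendsto_const_nhds.mul ((tendsto_const_nhds.sub
        (tendsto_const_nhds.mul (hr.pow 2))).pow n)).mul hinv)
  have hval : ((1 + (σ : ℝ) * 0 ^ 2) ^ M + c * (1 - (σ : ℝ) * 0 ^ 2) ^ n * 0 : ℝ) = 1 := by
    norm_num
  rw [hval] at hlim
  refine hlim.congr' ?_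
  filter_upwards [hmem] with p hpS
  have h1 := hXpos p hpS
  have h2 := (hE p hpS).eq
  have heq : (κ : ℝ) * (p.1 : ℝ) ^ q * (p.2 : ℝ) ^ q =
      ((p.1 : ℝ) ^ 2 + σ * (p.2 : ℝ) ^ 2) ^ M + c * ((p.1 : ℝ) ^ 2 - σ * (p.2 : ℝ) ^ 2) ^ n := by
    exact_mod_cast congrArg (Int.cast : ℤ → ℝ) h2
  have hne0 : (p.1 : ℝ) ≠ 0 := h1.ne'
  have e1 : (1 + (σ : ℝ) * ((p.2 : ℝ) / p.1) ^ 2) ^ M =
      ((p.1 : ℝ) ^ 2 + σ * (p.2 : ℝ) ^ 2) ^ M / (p.1 : ℝ) ^ (2 * M) := by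
    rw [pow_mul, ← div_pow]
    congr 1
    field_simp
  have e2 : (1 - (σ : ℝ) * ((p.2 : ℝ) / p.1) ^ 2) ^ n =
      ((p.1 : ℝ) ^ 2 - σ * (p.2 : ℝ) ^ 2) ^ n / (p.1 : ℝ) ^ (2 * n) := by
    rw [pow_mul, ← div_pow]
    congr 1
    field_simp
  have e3 : (1 / (p.1 : ℝ)) ^ (2 * (M - n)) / (p.1 : ℝ) ^ (2 * n) = 1 / (p.1 : ℝ) ^ (2 * M) := by
    rw [one_div, inv_pow, div_eq_mul_inv, ← mul_inv, ← pow_add, one_div]
    congr 2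
    have := hp.hnM
    omega
  have e4 : (κ : ℝ) * (p.2 : ℝ) ^ q / (p.1 : ℝ) ^ (2 * M - q) =
      (κ * (p.1 : ℝ) ^ q * (p.2 : ℝ) ^ q) / (p.1 : ℝ) ^ (2 * M) := by
    have h5 : (p.1 : ℝ) ^ (2 * M) = (p.1 : ℝ) ^ (2 * M - q) * (p.1 : ℝ) ^ q := by
      rw [← pow_add]
      congr 1
      have := hp.hq
      omega
    rw [h5, div_eq_div_iff (by positivity) (by positivity)]
    ring
  rw [e4, heq, e1, e2, add_div]
  congr 1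
  calc (c : ℝ) * (((p.1 : ℝ) ^ 2 - σ * (p.2 : ℝ) ^ 2) ^ n / (p.1 : ℝ) ^ (2 * n)) *
        (1 / (p.1 : ℝ)) ^ (2 * (M - n)) =
      c * ((p.1 : ℝ) ^ 2 - σ * (p.2 : ℝ) ^ 2) ^ n *
        ((1 / (p.1 : ℝ)) ^ (2 * (M - n)) / (p.1 : ℝ) ^ (2 * n)) := by ring
    _ = _ := by rw [e3]; ring

end Pool.Agent.MNE.H27
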